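import Pool.Agent.H21.LoopSN2

namespace Pool.Agent.Results.MP_829a29_al.MltNil

open Pool.Agent.H21.Loop

theorem result (Q : Type) [MulOneClass Q] (h : IsLoop Q) (hn : Group.IsNilpotent (Mlt Q)) :
    ∃ k, 1 ≤ k ∧ Supernilpotent Q k := by
  obtain ⟨c, hc⟩ := hn.nilpotent'
  exact ⟨_, Nat.mul_pos (Pool.Agent.H21.Cube.dd_pos c) (by positivity), supernil h hc⟩

end Pool.Agent.Results.MP_829a29_al.MltNil
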